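import Mathlib
import Pool.Agent.Helper50.KRMain
import Pool.Agent.Helper50.KRSpaceA

/-!
# A closed subgroup of a free topological group that is a k_R-space need not be a k_R-space

The space `X` is a Tychonoff plank: the product of a compact space having a non-isolated P-point
with a convergent sequence, minus the corner. Its free topological group `F(X)` is a `k_R`-space
because every real function on `F(X)` that is continuous on compact sets extends to the free group
over the full compact product, where it is continuous for the `k_omega` group topology. The
subgroup generated by the closed discrete right edge of the plank is closed, but it carries a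
function that is continuous on compact sets and discontinuous at the identity.
-/

open Topology Set Filter OnePoint

namespace Pool.Agent.Results.MP_02575e_gt.ClosedSubgroupNotKR

/-- A space `Y` is a `k_R`-space if every function `f : Y → ℝ` whose restriction to each compact
subset is continuous is itself continuous. -/
def IsKRSpace (Y : Type) [TopologicalSpace Y] : Prop :=
  ∀ f : Y → ℝ, (∀ K : Set Y, IsCompact K → ContinuousOn f K) → Continuous f

/-- `i : X → F` exhibits the topological group `F` as the free topological group on the space `X`
in the sense of Markov: `X` is a subspace of `F` through `i`, algebraically `F` is the free group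
on the set `X`, and every continuous map from `X` to a topological group `G` extends uniquely to a
continuous homomorphism `F → G`. -/
structure IsMarkovFree {X F : Type} [TopologicalSpace X] [Group F] [TopologicalSpace F]
    (i : X → F) : Prop where
  isEmbedding : IsEmbedding i
  algebraicallyFree : Function.Bijective (FreeGroup.lift i)
  universal : ∀ (G : Type) [Group G] [TopologicalSpace G] [IsTopologicalGroup G] (f : X → G),
    Continuous f → ∃! φ : F →* G, Continuous φ ∧ ∀ x, φ (i x) = f x

theorem result :
    ∃ (X : Type) (_ : TopologicalSpace X) (F : Type) (_ : Group F) (_ : TopologicalSpace F)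
      (_ : IsTopologicalGroup F) (i : X → F) (H : Subgroup F),
      T35Space X ∧ LocallyCompactSpace X ∧ T35Space F ∧ IsMarkovFree i ∧
      IsKRSpace F ∧ IsClosed (H : Set F) ∧ ¬ IsKRSpace H := by
  let a₀ : Helper50.AA := ∞
  let X : Type := Helper50.Plank a₀
  letI tF : TopologicalSpace (FreeGroup X) := Helper50.freeTop X
  haveI hF : IsTopologicalGroup (FreeGroup X) := Helper50.freeTop_isTopologicalGroup X
  have hNI : (𝓝[≠] a₀).NeBot := OnePoint.nhdsNE_infty_neBot
  have hP := Helper50.AA_pPoint
  have hsep := Helper50.AAN_sep
  have hof : Continuous (FreeGroup.of : X → FreeGroup X) := Helper50.freeTop_continuous_of X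
  -- comparison with the free group over the full product
  letI tfin : TopologicalSpace (FreeGroup (Helper50.AA × OnePoint ℕ)) :=
    Helper50.finTop (Helper50.AA × OnePoint ℕ)
  haveI : IsTopologicalGroup (FreeGroup (Helper50.AA × OnePoint ℕ)) :=
    Helper50.finTop_isTopologicalGroup _
  haveI : T2Space (FreeGroup (Helper50.AA × OnePoint ℕ)) := Helper50.finTop_t2 hsep
  have hofC : Continuous (FreeGroup.of : Helper50.AA × OnePoint ℕ → FreeGroup _) :=
    Helper50.continuous_of_finTop _
  have hι : Continuous (FreeGroup.map (Subtype.val : X → Helper50.AA × OnePoint ℕ)) := by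
    apply Helper50.freeTop_continuous_map _ inferInstance
    exact hofC.comp continuous_subtype_val
  have hιinj : Function.Injective (FreeGroup.map (Subtype.val : X → Helper50.AA × OnePoint ℕ)) := by
    intro v w hvw
    have h1 := congrArg (FreeGroup.map (Helper50.subst (Helper50.xpt a₀ 0))) hvw
    rwa [Helper50.map_subst_map_val, Helper50.map_subst_map_val] at h1
  haveI : T2Space (FreeGroup X) := T2Space.of_injective_continuous hιinj hι
  have hemb : IsEmbedding (FreeGroup.of : X → FreeGroup X) := by
    have h1 : IsEmbedding (FreeGroup.of : Helper50.AA × OnePoint ℕ → FreeGroup _) :=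
      (hofC.isClosedEmbedding FreeGroup.of_injective).isEmbedding
    have h2 : IsEmbedding (FreeGroup.map (Subtype.val : X → Helper50.AA × OnePoint ℕ) ∘
        FreeGroup.of) := by
      have h3 : (FreeGroup.map (Subtype.val : X → Helper50.AA × OnePoint ℕ) ∘ FreeGroup.of) =
          FreeGroup.of ∘ Subtype.val := by
        ext1 x
        simp
      rw [h3]
      exact h1.comp IsEmbedding.subtypeVal
    exact IsEmbedding.of_comp hof hι h2
  have hT35 : T35Space (FreeGroup X) := by
    letI := IsTopologicalGroup.rightUniformSpace (FreeGroup X)
    exact T35Space.mk
  refine ⟨X, inferInstance, FreeGroup X, inferInstance, tF, hF, FreeGroup.of,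
    Helper50.edgeSubgroup a₀, inferInstance, Helper50.plank_locallyCompact, hT35, ?_, ?_, ?_, ?_⟩
  · refine ⟨hemb, ?_, ?_⟩
    · have h1 : FreeGroup.lift (FreeGroup.of : X → FreeGroup X) = MonoidHom.id _ := by
        ext x
        simp
      rw [h1]
      exact Function.bijective_id
    · intro G _ _ _ f hf
      refine ⟨FreeGroup.lift f, ⟨Helper50.freeTop_continuous_lift X _ inferInstance f hf, fun x =>
        FreeGroup.lift_apply_of ..⟩, ?_⟩
      rintro ψ ⟨_, hψ⟩
      ext x
      rw [hψ x, FreeGroup.lift_apply_of]
  · exact Helper50.freeTop_isKRSpace hP hNI hsep
  · exact Helper50.edgeSubgroup_isClosed a₀ hsep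
  · exact Helper50.edge_not_kR a₀ hP hNI hsep

end Pool.Agent.Results.MP_02575e_gt.ClosedSubgroupNotKR
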